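import Pool.Agent.Helper67.Conv.Final

set_option autoImplicit false

namespace Pool.Agent.Results.MP_9fcec4_mp.ConvexityFails

open Pool.Agent.Helper67.Conv

/-- Ten protons can be placed at distinct points of space so that the ionization energies of the
systems with three and four electrons satisfy `0 < I[3] < I[4]`, that is
`E(2) + E(4) < 2 E(3)` and `E(3) < E(2)`: the ground state energy is not convex in the number of
electrons. -/
theorem result :
    ∃ R : Fin 10 → Space, Function.Injective R ∧
      (∀ M, 2 ≤ M → M ≤ 4 →
        (energies (fun _ => 1) R M).Nonempty ∧ BddBelow (energies (fun _ => 1) R M)) ∧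
      0 < ionization (fun _ => 1) R 3 ∧
      ionization (fun _ => 1) R 3 < ionization (fun _ => 1) R 4 :=
  main

end Pool.Agent.Results.MP_9fcec4_mp.ConvexityFails
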